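import Pool.Agent.BINQ.Final
import Pool.Agent.BIN.Final
set_option autoImplicit false

/-!
# MP_ab7cc8_co: sorting two balls per bin by adjacent swaps, full answer to Q1

`f2 n = ⌈C(2n, 2) / 3⌉` for every `n ≥ 1` except `f2 1 = 0` and `f2 6 = 23`.
-/

namespace Pool.Agent.Results.MP_ab7cc8_co.SortTwo

open Bq

/-- The exact value of `f2 n` for every number `n ≥ 1` of bins; moreover every configuration can be
sorted, in `sortNum c` moves, and `f2 n` is the largest value of `sortNum`. -/
theorem result (n : ℕ) (hn : 1 ≤ n) :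
    f2 n = (if n = 1 then 0 else if n = 6 then 23 else ⌈(Nat.choose (2 * n) 2 : ℚ) / 3⌉₊) ∧
      (∀ c : Config n, (∃ d, Moves (sortNum c) c d ∧ IsSorted d) ∧ sortNum c ≤ f2 n) ∧
      (∃ c : Config n, sortNum c = f2 n) :=
  main_of Bn.constr n hn

end Pool.Agent.Results.MP_ab7cc8_co.SortTwo
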